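import Pool.Agent.Q173.FanTreeMain

/-!
A smooth EPG fan which is not endpoint-homogeneous: the one-point union at the top of two smooth
fans with the same EPG set whose blades are approximated in different ways.
-/

namespace Pool.Agent.Results.MP_0958cc_gt.MixedSemigroupFan

open Q173Fan

/-- There are a set `P ⊆ [0,1]` and a plane set `F` which is a smooth `P`-EPG fan, with two end
points not exchanged by any self-homeomorphism of `F`. -/
theorem result : ∃ (F : Set (ℝ × ℝ)) (P : Set unitInterval),
    (∃ t : F, IsSmoothFan F t ∧ IsEPG F t P) ∧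
    ∃ e e' : F, IsEndPoint e ∧ IsEndPoint e' ∧ ∀ f : F ≃ₜ F, f e ≠ e' := by
  refine ⟨(tree a3).F, P0, ⟨(tree a3).o, isSmoothFan_tree a3, isEPG_tree good3⟩, ?_⟩
  have h := not_homogeneous_3
  unfold EndPointHomogeneous at h
  push Not at h
  exact h

end Pool.Agent.Results.MP_0958cc_gt.MixedSemigroupFan
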